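import Pool.Agent.Q190.CE.EKA
import Pool.Agent.Y715.T.Kum

/-!
# Project CE (helper7), job EKUM
-/

set_option autoImplicit false

namespace Pool.Agent.Q190.CE

open WeierstrassCurve NumberField IsDedekindDomain
open Pool.Agent.Q7.CE
open Pool.Agent.Q7.LK (IsPow)
open Pool.Agent.TH841.SH.D (Coch Pt act Gal IsCoc IsCob LocTriv)
open Pool.Agent.TH841.NF.D (Sha IsShaCoc)

/-- restriction of automorphisms -/
theorem exists_restr {K Kv : Type} [Field K] [Field Kv] [Algebra K Kv]
    (ι : AlgebraicClosure K →ₐ[K] AlgebraicClosure Kv) (τ : Gal Kv) :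
    ∃ σ : Gal K, ∀ x, τ (ι x) = ι (σ x) := by
  let _ : Algebra (AlgebraicClosure K) (AlgebraicClosure Kv) := ι.toRingHom.toAlgebra
  have : IsScalarTower K (AlgebraicClosure K) (AlgebraicClosure Kv) :=
    IsScalarTower.of_algebraMap_eq (fun x => (ι.commutes x).symm)
  have : Normal K (AlgebraicClosure K) := IsAlgClosure.normal K _
  let τ' : AlgebraicClosure Kv ≃ₐ[K] AlgebraicClosure Kv := τ.restrictScalars K
  exact ⟨τ'.restrictNormal (AlgebraicClosure K), fun x =>
    (AlgEquiv.restrictNormal_commutes τ' (AlgebraicClosure K) x).symm⟩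

theorem cube_eq {L : Type} [Field L] {w x y : L} (hw : w ^ 2 + w + 1 = 0) (h : x ^ 3 = y ^ 3) :
    ∃ i : ℕ, x = w ^ i * y := by
  have h1 : (x - y) * ((x - w * y) * (x - w ^ 2 * y)) = 0 := by
    linear_combination h + (x * y ^ 2 * w - x ^ 2 * y - y ^ 3 * (w - 1)) * hw
  rcases mul_eq_zero.1 h1 with h2 | h2
  · exact ⟨0, by linear_combination h2⟩
  · rcases mul_eq_zero.1 h2 with h3 | h3
    · exact ⟨1, by linear_combination h3⟩
    · exact ⟨2, by linear_combination h3⟩

theorem local_AE {F : Type} [Field F] {D : F} (hD : D ≠ 0) (K : Type) [Field K] [Algebra F K] [CharZero K] [CharZero F]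
    (f : Coch (ED D)) (h3 : (3 : AlgebraicClosure F) ≠ 0) (h : Gal F → ZMod 3) (hf : ∀ σ, f σ = tt D h3 hD (h σ))
    (hloc : LocTriv (ED D) K f) {w : F} (hw : w ^ 2 + w + 1 = 0) {s : AlgebraicClosure F} {a : F} (hs0 : s ≠ 0)
    (hs3 : s ^ 3 = algebraMap F _ a) (hs : ∀ σ : Gal F, σ s = (algebraMap F (AlgebraicClosure F) w) ^ (h σ).val * s) :
    ∃ u w' t : K, (u ≠ 0 ∨ w' ≠ 0 ∨ t ≠ 0) ∧
      w' ^ 3 = (algebraMap F K a) ^ 2 * u ^ 3 + algebraMap F K a * algebraMap F K D * t ^ 3 := by
  have k3 : (3 : AlgebraicClosure K) ≠ 0 := three_ne_zero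
  let ι : AlgebraicClosure F →ₐ[F] AlgebraicClosure K := IsAlgClosed.lift
  obtain ⟨P, hP⟩ := hloc ι
  set W := algebraMap F (AlgebraicClosure K) w with hWdef
  have hW : W ^ 2 + W + 1 = 0 := by
    rw [hWdef, ← map_pow, ← map_add, ← map_one (algebraMap F (AlgebraicClosure K)), ← map_add, hw, map_zero]
  have hW3 : W ^ 3 = 1 := by linear_combination (W - 1) * hW
  have hι0 : ι s ≠ 0 := by
    intro h0
    exact hs0 ((map_eq_zero ι).1 h0)
  have hι3 : ι s ^ 3 = algebraMap F (AlgebraicClosure K) a := by rw [← map_pow, hs3, ι.commutes]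
  have key : ∀ τ : Gal K, ∃ c : ZMod 3, act (ED D) (τ.toAlgHom.restrictScalars F) P = P + tt D k3 hD c ∧
      τ (ι s) = W ^ c.val * ι s := by
    intro τ
    obtain ⟨σ, hσ⟩ := exists_restr ι τ
    refine ⟨h σ, ?_, ?_⟩
    · have h1 := hP τ σ hσ
      rw [hf σ, act_tt ι h3 k3 hD] at h1
      rw [h1]
      abel
    · rw [hσ s, hs σ, map_mul, map_pow, ι.commutes]
  have htower : ∀ z : F, algebraMap F (AlgebraicClosure K) z = algebraMap K (AlgebraicClosure K) (algebraMap F K z) :=
    fun z => IsScalarTower.algebraMap_apply F K (AlgebraicClosure K) z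
  have triv : (∀ τ : Gal K, act (ED D) (τ.toAlgHom.restrictScalars F) P = P) → ∃ u w' t : K, (u ≠ 0 ∨ w' ≠ 0 ∨ t ≠ 0) ∧
      w' ^ 3 = (algebraMap F K a) ^ 2 * u ^ 3 + algebraMap F K a * algebraMap F K D * t ^ 3 := by
    intro hfix
    have h1 : ι s ∈ Set.range (algebraMap K (AlgebraicClosure K)) := by
      rw [InfiniteGalois.mem_range_algebraMap_iff_fixed]
      intro τ
      obtain ⟨c, hc1, hc2⟩ := key τ
      rw [hfix τ] at hc1
      have hc0 : c = 0 := tt_eq_zero k3 hD c (left_eq_add.1 hc1)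
      rw [hc2, hc0, ZMod.val_zero, pow_zero, one_mul]
    obtain ⟨k, hk⟩ := h1
    have hk3 : k ^ 3 = algebraMap F K a := by
      apply (algebraMap K (AlgebraicClosure K)).injective
      rw [map_pow, hk, hι3, htower]
    refine ⟨1, k ^ 2, 0, Or.inl one_ne_zero, ?_⟩
    rw [← hk3]
    ring
  rcases pt_cases k3 hD P with h0 | ⟨x, y, hxy, hPxy⟩
  · exact triv (fun τ => by rw [h0, map_zero])
  · by_cases hx : x = 0
    · apply triv
      intro τ
      obtain ⟨c0, hc0⟩ := ker_tt k3 hD P (Or.inr (by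
        subst hx
        exact ⟨y, _, hPxy⟩))
      rw [hc0, act_tt _ k3 k3 hD]
    · set d := algebraMap F (AlgebraicClosure K) D with hddef
      have hτd : ∀ (τ : Gal K) (z : F), τ (algebraMap F (AlgebraicClosure K) z) = algebraMap F (AlgebraicClosure K) z := by
        intro τ z
        rw [htower, τ.commutes]
      have key2 : ∀ τ : Gal K, ∃ c : ZMod 3, τ (gm d W x y) = W ^ c.val * gm d W x y ∧
          τ (dl d W x y) = W ^ (2 * c.val) * dl d W x y ∧ τ (ι s) = W ^ c.val * ι s := by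
        intro τ
        obtain ⟨c, hc1, hc2⟩ := key τ
        obtain ⟨x', y', h', hx', e1, e2, e3⟩ := iter k3 hD hW hx hxy c.val
        obtain ⟨h'', e4⟩ := act_mk (τ.toAlgHom.restrictScalars F) k3 k3 hD hxy
        rw [hPxy, e4] at hc1
        have e5 := mkP_inj (hc1.trans e1)
        refine ⟨c, ?_, ?_, hc2⟩
        · rw [← e2, ← e5.1, ← e5.2]
          show τ (gm d W x y) = gm d W (τ x) (τ y)
          unfold gm
          rw [map_div₀, map_sub, map_mul, map_mul, map_sub, map_pow, hτd τ w, hτd τ D]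
        · rw [← e3, ← e5.1, ← e5.2]
          show τ (dl d W x y) = dl d W (τ x) (τ y)
          unfold dl
          rw [map_div₀, map_sub, map_mul, map_mul, map_sub, map_pow, hτd τ w, hτd τ D]
      have hW0 : W ≠ 0 := by
        intro h0
        rw [h0] at hW3
        norm_num at hW3
      have h1 : gm d W x y / ι s ∈ Set.range (algebraMap K (AlgebraicClosure K)) := by
        rw [InfiniteGalois.mem_range_algebraMap_iff_fixed]
        intro τ
        obtain ⟨c, hc1, hc2, hc3⟩ := key2 τ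
        rw [map_div₀, hc1, hc3, mul_div_mul_left _ _ (pow_ne_zero _ hW0)]
      have h2 : dl d W x y * ι s ∈ Set.range (algebraMap K (AlgebraicClosure K)) := by
        rw [InfiniteGalois.mem_range_algebraMap_iff_fixed]
        intro τ
        obtain ⟨c, hc1, hc2, hc3⟩ := key2 τ
        rw [map_mul, hc2, hc3]
        have e : W ^ (2 * c.val) * W ^ c.val = 1 := by
          rw [← pow_add, show 2 * c.val + c.val = 3 * c.val by ring, pow_mul, hW3, one_pow]
        linear_combination (dl d W x y * ι s) * e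
      obtain ⟨u, hu⟩ := h1
      obtain ⟨v, hv⟩ := h2
      refine ⟨u, v, 1, Or.inr (Or.inr one_ne_zero), ?_⟩
      apply (algebraMap K (AlgebraicClosure K)).injective
      rw [map_pow, map_add, map_mul, map_mul, map_mul, map_pow, map_pow, map_pow, hu, hv, map_one, ← htower, ← htower,
        ← hι3, ← hddef]
      have hdg := dl_gm k3 hW hx hxy
      have e7 : (ι s ^ 3) ^ 2 * (gm d W x y / ι s) ^ 3 = ι s ^ 3 * gm d W x y ^ 3 := by
        field_simp
      rw [e7]
      linear_combination ι s ^ 3 * hdg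

theorem ekum : S_EKUM := by
  intro F _ _ ω D hω hD f hf hker
  have h3 : (3 : AlgebraicClosure F) ≠ 0 := three_ne_zero
  have hw : ω ^ 2 + ω + 1 = 0 := by
    have h1 : (ω - 1) * (ω ^ 2 + ω + 1) = 0 := by
      linear_combination hω.pow_eq_one
    have h2 : ω - 1 ≠ 0 := sub_ne_zero.2 (hω.ne_one (by norm_num))
    exact (mul_eq_zero.1 h1).resolve_left h2
  set I := algebraMap F (AlgebraicClosure F) ω with hIdef
  have hI : I ^ 2 + I + 1 = 0 := by
    rw [hIdef, ← map_pow, ← map_add, ← map_one (algebraMap F (AlgebraicClosure F)), ← map_add, hw, map_zero]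
  have hfixI : ∀ σ : Gal F, σ I = I := fun σ => σ.commutes ω
  have hprim : IsPrimitiveRoot I 3 := hω.map_of_injective (algebraMap F (AlgebraicClosure F)).injective
  have hex : ∀ σ, ∃ c : ZMod 3, f σ = tt D h3 hD c := fun σ => ker_tt h3 hD _ (hker σ)
  choose h hh using hex
  have hcont : IsLocallyConstant h := by
    classical
    have e : h = (fun P : Pt (ED D) (AlgebraicClosure F) =>
        if hx : ∃ c : ZMod 3, P = tt D h3 hD c then hx.choose else 0) ∘ f := by
      ext1 σ
      show h σ = if hx : ∃ c : ZMod 3, f σ = tt D h3 hD c then hx.choose else 0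
      have hx : ∃ c : ZMod 3, f σ = tt D h3 hD c := ⟨h σ, hh σ⟩
      rw [dif_pos hx]
      exact tt_inj h3 hD ((hh σ).symm.trans hx.choose_spec)
    rw [e]
    exact hf.1.1.comp _
  have hmul : ∀ σ τ, h (σ * τ) = h σ + h τ := by
    intro σ τ
    apply tt_inj (L := AlgebraicClosure F) h3 hD
    rw [← hh, hf.1.2, hh σ, hh τ, act_tt _ h3 h3 hD, tt_add]
  obtain ⟨s, a, hs0, hs3, hs⟩ := Pool.Agent.Y715.T.Kum.exists_root (K := F) (Ω := AlgebraicClosure F) h3 hI hfixI h hmul hcont
  have ha0 : a ≠ 0 := by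
    intro h0
    rw [h0, map_zero] at hs3
    exact hs0 (pow_eq_zero_iff (three_ne_zero) |>.1 hs3)
  refine ⟨a, ?_, ?_⟩
  · intro v
    refine ⟨ha0, ?_⟩
    have : CharZero (v.adicCompletion F) := charZero_of_injective_algebraMap (algebraMap F _).injective
    exact local_AE hD (v.adicCompletion F) f h3 h hh (hf.2.1 v) hw hs0 hs3 hs
  · rintro j ⟨c, hc⟩
    obtain ⟨β, hβ⟩ := IsAlgClosed.exists_pow_nat_eq (algebraMap F (AlgebraicClosure F) D) (n := 3) (by norm_num)
    set d := algebraMap F (AlgebraicClosure F) D with hddef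
    have hd : d ≠ 0 := (map_ne_zero _).2 hD
    have hβ0 : β ≠ 0 := by
      intro h0
      rw [h0] at hβ
      apply hd
      rw [← hβ]
      ring
    have hR : (I * d) ^ 2 + d * (I * d) = (-β ^ 2) ^ 3 := by
      rw [← hβ]
      linear_combination β ^ 6 * hI
    have h3R : (3 : ℕ) • (mkP h3 hD (-β ^ 2) (I * d) hR : Pt (ED D) (AlgebraicClosure F)) = 0 := by
      rw [succ_nsmul, two_nsmul, R_add_R h3 hD hI hβ hR, neg_add_cancel]
    have hRT : ∀ k : ℕ, ∃ h', mkP h3 hD (-β ^ 2) (I * d) hR + k • TT D h3 hD =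
        (mkP h3 hD (I ^ k * -β ^ 2) (I * d) h' : Pt (ED D) (AlgebraicClosure F)) := by
      intro k
      induction k with
      | zero =>
        rw [zero_nsmul, add_zero]
        exact mkP_congr (by ring) rfl
      | succ k ih =>
        obtain ⟨h', e⟩ := ih
        have hx : I ^ k * -β ^ 2 ≠ 0 := mul_ne_zero (pow_ne_zero _ (hprim.ne_zero (by norm_num))) (neg_ne_zero.2 (pow_ne_zero 2 hβ0))
        obtain ⟨h'', e'⟩ := add_T h3 hD h' hx (by ring)
        rw [succ_nsmul, ← add_assoc, e]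
        have hcub : (I ^ k * -β ^ 2) ^ 3 = - d ^ 2 := by
          rw [mul_pow, ← pow_mul, mul_comm k 3, pow_mul, hprim.pow_eq_one, one_pow, ← hβ]
          ring
        obtain ⟨h5, e5⟩ := mkP_congr (h3 := h3) (hD := hD) (h := h'')
          (show -d * (I * d) / (I ^ k * -β ^ 2) ^ 2 = I ^ (k + 1) * -β ^ 2 by
            rw [div_eq_iff (pow_ne_zero 2 hx)]
            linear_combination -I * hcub)
          (show -d ^ 2 * (I * d) / (I ^ k * -β ^ 2) ^ 3 = I * d by
            rw [div_eq_iff (pow_ne_zero 3 hx)]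
            linear_combination -(I * d) * hcub)
        exact ⟨h5, e'.trans e5⟩
    refine ⟨j • mkP h3 hD (-β ^ 2) (I * d) hR, ?_, ?_⟩
    · rw [smul_comm, h3R, nsmul_zero]
    · intro σ
      obtain ⟨b, hb⟩ := cube_eq hI (x := σ β) (y := β) (by rw [← map_pow, hβ]; exact σ.commutes D)
      have e1 : act (ED D) σ.toAlgHom (mkP h3 hD (-β ^ 2) (I * d) hR) = mkP h3 hD (-β ^ 2) (I * d) hR + (2 * b) • TT D h3 hD := by
        obtain ⟨h', e'⟩ := act_mk σ.toAlgHom h3 h3 hD hR
        obtain ⟨h'', e''⟩ := hRT (2 * b)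
        rw [e', e'']
        refine (mkP_congr ?_ ?_).choose_spec
        · show σ (-β ^ 2) = _
          rw [map_neg, map_pow, hb]
          ring
        · show σ (I * d) = _
          rw [map_mul, hfixI σ]
          congr 1
          exact σ.commutes D
      have e2 : ((h σ).val + b * j : ℕ) = (0 : ZMod 3) := by
        rw [ZMod.natCast_eq_zero_iff, ← hprim.pow_eq_one_iff_dvd]
        have hcc : (s * β ^ j) ^ 3 = (algebraMap F (AlgebraicClosure F) c) ^ 3 := by
          rw [mul_pow, hs3, ← pow_mul, mul_comm j 3, pow_mul, hβ, hddef, ← map_pow, ← map_mul, hc, map_pow]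
        obtain ⟨i, hi⟩ := cube_eq hI hcc
        have h5 : σ (s * β ^ j) = s * β ^ j := by
          rw [hi, map_mul, map_pow, hfixI σ, σ.commutes]
        rw [map_mul, map_pow, hs σ, hb] at h5
        have h6 : s * β ^ j ≠ 0 := mul_ne_zero hs0 (pow_ne_zero _ hβ0)
        apply mul_right_cancel₀ h6
        rw [one_mul]
        rw [pow_add, pow_mul]
        linear_combination h5
      rw [map_nsmul, e1, nsmul_add, add_sub_cancel_left, hh σ]
      rw [← mul_nsmul, ← tt_nat]
      congr 1
      push_cast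
      rw [Nat.cast_add, ZMod.natCast_zmod_val] at e2
      push_cast at e2
      have h30 : (3 : ZMod 3) = 0 := rfl
      linear_combination e2 - (b : ZMod 3) * j * h30

end Pool.Agent.Q190.CE
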