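import Pool.Agent.Q7.CE.Stm
import Pool.Agent.Q262.LK.NRM

/-!
# Project CE (helper7), job EISO: the classes are isotropic for the Hilbert symbol
-/

set_option autoImplicit false

namespace Pool.Agent.Q190.CE

open Polynomial
open Pool.Agent.Q262.LK (el Nf Mc norm_el bs bs_apply)

section A

variable {K : Type} [Field K]

theorem Nf3 (c α β ε : K) : Nf 3 c ![α, β, ε] = α ^ 3 + c * β ^ 3 + c ^ 2 * ε ^ 3 - 3 * c * α * β * ε := by
  have h0 : Mc 3 c = !![0, 0, c; 1, 0, 0; 0, 1, 0] := by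
    ext i j
    fin_cases i <;> fin_cases j <;> simp [Mc]
  have h2 : (!![0, 0, c; 1, 0, 0; 0, 1, 0] : Matrix (Fin 3) (Fin 3) K) ^ 2 = !![0, c, 0; 0, 0, c; 1, 0, 0] := by
    rw [sq]
    ext i j
    fin_cases i <;> fin_cases j <;> simp [Matrix.mul_apply, Fin.sum_univ_three]
  rw [Nf, Fin.sum_univ_three, h0, Matrix.det_fin_three]
  simp [h2]
  ring

theorem norm3 (c α β ε : K) : Algebra.norm K (el 3 c ![α, β, ε]) =
    α ^ 3 + c * β ^ 3 + c ^ 2 * ε ^ 3 - 3 * c * α * β * ε := by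
  rw [norm_el 3 (by norm_num), Nf3]

theorem el_ne (c : K) (x : Fin 3 → K) (i : Fin 3) (hx : x i ≠ 0) : el 3 c x ≠ 0 := by
  intro h
  apply hx
  have h1 : ∑ j, x j • bs 3 (by norm_num) c j = 0 := by
    rw [← h, el]
    exact Finset.sum_congr rfl fun j _ => by rw [bs_apply]
  exact Fintype.linearIndependent_iff.1 (bs 3 (by norm_num) c).linearIndependent x h1 i

theorem lemB (c D u' w' : K) (hc : c ≠ 0) (h : w' ^ 3 = c ^ 2 * u' ^ 3 + c * D) :
    ∃ s : AdjoinRoot (X ^ 3 - C c), Algebra.norm K s = D := by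
  refine ⟨el 3 c ![0, -u', w' / c], ?_⟩
  rw [norm3]
  field_simp
  linear_combination h

theorem lemA0 (a c u w u' k : K) (hc : c ≠ 0) (hD : c ^ 2 * k ^ 3 - c * u' ^ 3 ≠ 0) (hu : u ≠ 0)
    (h1 : w ^ 3 = a ^ 2 * u ^ 3 + a * (c ^ 2 * k ^ 3 - c * u' ^ 3))
    (hirr : Irreducible (X ^ 3 - C c : K[X])) :
    ∃ s : AdjoinRoot (X ^ 3 - C c), Algebra.norm K s = a := by
  have : Fact (Irreducible (X ^ 3 - C c : K[X])) := ⟨hirr⟩
  have hne : el 3 c ![u * w + c * u' * k, c * k ^ 2, u' ^ 2] ≠ 0 := by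
    by_cases hu' : u' = 0
    · have hw' : k ≠ 0 := by
        intro h0
        apply hD
        rw [hu', h0]
        ring
      refine el_ne c _ 1 ?_
      show c * k ^ 2 ≠ 0
      exact mul_ne_zero hc (pow_ne_zero _ hw')
    · refine el_ne c _ 2 ?_
      show u' ^ 2 ≠ 0
      exact pow_ne_zero _ hu'
  have hinv : el 3 c ![u * w + c * u' * k, c * k ^ 2, u' ^ 2] *
      (el 3 c ![u * w + c * u' * k, c * k ^ 2, u' ^ 2])⁻¹ = 1 := mul_inv_cancel₀ hne
  have hN := congrArg (Algebra.norm K) hinv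
  rw [map_mul, map_one, norm3] at hN
  set Q := Algebra.norm K (el 3 c ![u * w + c * u' * k, c * k ^ 2, u' ^ 2])⁻¹ with hQ
  refine ⟨el 3 c ![a * u ^ 3, -(u' * (u * w)), k * (u * w)] *
    (el 3 c ![u⁻¹, 0, 0] * (el 3 c ![u * w + c * u' * k, c * k ^ 2, u' ^ 2])⁻¹), ?_⟩
  rw [map_mul, map_mul, norm3, norm3, ← hQ]
  have e1 : (a * u ^ 3) ^ 3 + c * (-(u' * (u * w))) ^ 3 + c ^ 2 * (k * (u * w)) ^ 3 -
      3 * c * (a * u ^ 3) * (-(u' * (u * w))) * (k * (u * w)) =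
      (a * u ^ 3) * ((u * w + c * u' * k) ^ 3 + c * (c * k ^ 2) ^ 3 + c ^ 2 * (u' ^ 2) ^ 3 -
        3 * c * (u * w + c * u' * k) * (c * k ^ 2) * u' ^ 2) := by
    linear_combination (-(u ^ 3 * (a * u ^ 3 - (c ^ 2 * k ^ 3 - c * u' ^ 3)))) * h1
  rw [e1]
  have e2 : u⁻¹ ^ 3 + c * 0 ^ 3 + c ^ 2 * 0 ^ 3 - 3 * c * u⁻¹ * 0 * 0 = u⁻¹ ^ 3 := by ring
  rw [e2]
  calc _ = a * (u * u⁻¹) ^ 3 * (((u * w + c * u' * k) ^ 3 + c * (c * k ^ 2) ^ 3 + c ^ 2 * (u' ^ 2) ^ 3 -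
        3 * c * (u * w + c * u' * k) * (c * k ^ 2) * u' ^ 2) * Q) := by ring
    _ = a := by rw [hN, mul_inv_cancel₀ hu]; ring

theorem lemA (a c D u w u' w' : K) (hc : c ≠ 0) (hD : D ≠ 0) (hu : u ≠ 0)
    (h1 : w ^ 3 = a ^ 2 * u ^ 3 + a * D) (h2 : w' ^ 3 = c ^ 2 * u' ^ 3 + c * D)
    (hirr : Irreducible (X ^ 3 - C c : K[X])) :
    ∃ s : AdjoinRoot (X ^ 3 - C c), Algebra.norm K s = a := by
  have e : c ^ 2 * (w' / c) ^ 3 - c * u' ^ 3 = D := by
    field_simp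
    linear_combination h2
  exact lemA0 a c u w u' (w' / c) hc (by rw [e]; exact hD) hu (by rw [e]; exact h1) hirr

/-- normal form of a solution -/
theorem normal (a D u w s : K) (ha : a ≠ 0) (hne : u ≠ 0 ∨ w ≠ 0 ∨ s ≠ 0)
    (h : w ^ 3 = a ^ 2 * u ^ 3 + a * D * s ^ 3) (hcube : ¬ ∃ b : K, a = b ^ 3) :
    ∃ u' w' : K, w' ^ 3 = a ^ 2 * u' ^ 3 + a * D := by
  by_cases hs : s = 0
  · exfalso
    apply hcube
    rw [hs] at h
    have h' : w ^ 3 = a ^ 2 * u ^ 3 := by rw [h]; ring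
    have hu : u ≠ 0 := by
      intro hu
      rw [hu] at h'
      have hw : w = 0 := by
        have : w ^ 3 = 0 := by rw [h']; ring
        exact pow_eq_zero_iff (by norm_num) |>.1 this
      rcases hne with h1 | h1 | h1
      · exact h1 hu
      · exact h1 hw
      · exact h1 hs
    have hw : w ≠ 0 := by
      intro hw
      rw [hw] at h'
      have : a ^ 2 * u ^ 3 = 0 := by rw [← h']; ring
      exact (mul_ne_zero (pow_ne_zero _ ha) (pow_ne_zero _ hu)) this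
    refine ⟨a * u / w, ?_⟩
    rw [div_pow, eq_div_iff (pow_ne_zero _ hw), h']
    ring
  · refine ⟨u / s, w / s, ?_⟩
    field_simp
    linear_combination h

end A

open NumberField IsDedekindDomain Filter Topology Finset
open Pool.Agent.Q7.LK Pool.Agent.Q7.CE

theorem eiso : S_BAS → S_CPL → S_NRM → S_EISO := by
  intro BAS CPL NRM F _ _ ζ hζ t ht v D a c hD hAa hAc
  have : Fact (Nat.Prime 3) := ⟨Nat.prime_three⟩
  obtain ⟨ha, u, w, s, hne, h⟩ := hAa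
  obtain ⟨hc, u', w', s', hne', h'⟩ := hAc
  by_cases la : Lpw 3 v a
  · exact ht.pow v a c la hc
  by_cases lc : Lpw 3 v c
  · rw [ht.anti v a c ha hc, ht.pow v c a lc ha, neg_zero]
  have hinj : Function.Injective (algebraMap F (v.adicCompletion F)) := (algebraMap F (v.adicCompletion F)).injective
  have coe_ne : ∀ x : F, x ≠ 0 → (x : v.adicCompletion F) ≠ 0 := by
    intro x hx h0
    apply hx
    apply hinj
    rw [map_zero]
    exact h0
  have ca : ¬ ∃ b : v.adicCompletion F, (a : v.adicCompletion F) = b ^ 3 := fun hb => la ((CPL 3 F v a).2 ⟨ha, hb⟩)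
  have cc : ¬ ∃ b : v.adicCompletion F, (c : v.adicCompletion F) = b ^ 3 := fun hb => lc ((CPL 3 F v c).2 ⟨hc, hb⟩)
  obtain ⟨u1, w1, h1⟩ := normal _ _ u w s (coe_ne a ha) hne h ca
  obtain ⟨u2, w2, h2⟩ := normal _ _ u' w' s' (coe_ne c hc) hne' h' cc
  have hirr : Irreducible (X ^ 3 - C (c : v.adicCompletion F) : (v.adicCompletion F)[X]) := by
    refine X_pow_sub_C_irreducible_of_prime Nat.prime_three ?_
    intro b hb
    exact cc ⟨b, hb.symm⟩
  have tD : t v D c = 0 := NRM 3 (by norm_num) F ζ hζ t ht v c hc lc D hD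
    (lemB _ _ u2 w2 (coe_ne c hc) h2)
  by_cases hu : u1 = 0
  · rw [hu] at h1
    have h3 : Lpw 3 v (a * D) := (CPL 3 F v (a * D)).2 ⟨mul_ne_zero ha hD, w1, by
      have e : ((a * D : F) : v.adicCompletion F) = (a : v.adicCompletion F) * (D : v.adicCompletion F) :=
        map_mul (algebraMap F (v.adicCompletion F)) a D
      rw [e, h1]
      ring⟩
    have h4 := ht.mul v a D c ha hD hc
    rw [ht.pow v (a * D) c h3 hc, tD, add_zero] at h4
    exact h4.symm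
  · exact NRM 3 (by norm_num) F ζ hζ t ht v c hc lc a ha
      (lemA _ _ _ u1 w1 u2 w2 (coe_ne c hc) (coe_ne D hD) hu h1 h2 hirr)

end Pool.Agent.Q190.CE
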