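import Pool.Agent.Q7.CE.Stm

/-!
# Project CE (helper7), job EKUM: the points `P + k T`
-/

set_option autoImplicit false
set_option linter.unusedSimpArgs false

namespace Pool.Agent.Q190.CE

open WeierstrassCurve
open Pool.Agent.Q7.CE
open Pool.Agent.TH841.SH.D (Coch Pt act Gal IsCoc IsCob LocTriv)

section

variable {F : Type} [Field F] {D : F} {L : Type} [Field L] [Algebra F L]

theorem eqn_iff (x y : L) : ((ED D).baseChange L).toAffine.Equation x y ↔
    y ^ 2 + algebraMap F L D * y = x ^ 3 := by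
  rw [Affine.equation_iff]
  simp [ED, WeierstrassCurve.baseChange]

theorem nons_iff (h3 : (3 : L) ≠ 0) (hD : D ≠ 0) (x y : L) : ((ED D).baseChange L).toAffine.Nonsingular x y ↔
    y ^ 2 + algebraMap F L D * y = x ^ 3 := by
  rw [Affine.nonsingular_iff, eqn_iff]
  constructor
  · exact fun h => h.1
  · intro h
    refine ⟨h, ?_⟩
    have hd : algebraMap F L D ≠ 0 := (map_ne_zero _).2 hD
    simp only [ED, WeierstrassCurve.baseChange, map_a₁, map_a₂, map_a₃, map_a₄, map_zero, zero_mul, mul_zero, add_zero, sub_zero]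
    by_contra hc
    push Not at hc
    obtain ⟨h1, h2⟩ := hc
    have hx : x = 0 := by
      have h4 : 3 * x ^ 2 = 0 := h1.symm
      exact pow_eq_zero_iff (two_ne_zero) |>.1 ((mul_eq_zero.1 h4).resolve_left h3)
    rw [hx] at h
    have h5 : y * (y + algebraMap F L D) = 0 := by linear_combination h
    rcases mul_eq_zero.1 h5 with h6 | h6
    · rw [h6] at h2
      apply hd
      linear_combination h2
    · apply hd
      linear_combination 2 * h6 - h2

/-- the point `(x, y)` -/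
def mkP (h3 : (3 : L) ≠ 0) (hD : D ≠ 0) (x y : L) (h : y ^ 2 + algebraMap F L D * y = x ^ 3) : Pt (ED D) L :=
  Affine.Point.some x y ((nons_iff h3 hD x y).2 h)

theorem mkP_inj {h3 : (3 : L) ≠ 0} {hD : D ≠ 0} {x y x' y' : L} {h h'} (e : mkP h3 hD x y h = mkP h3 hD x' y' h') :
    x = x' ∧ y = y' := by
  unfold mkP at e
  exact ⟨(Affine.Point.some.inj e).1, (Affine.Point.some.inj e).2⟩

theorem mkP_congr {h3 : (3 : L) ≠ 0} {hD : D ≠ 0} {x y x' y' : L} {h} (hx : x = x') (hy : y = y') :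
    ∃ h', mkP h3 hD x y h = mkP h3 hD x' y' h' := by
  subst hx
  subst hy
  exact ⟨h, rfl⟩

theorem add_mk (h3 : (3 : L) ≠ 0) (hD : D ≠ 0) {x y : L} (h : y ^ 2 + algebraMap F L D * y = x ^ 3)
    (hx : x ≠ 0) (h0 : (0 : L) ^ 2 + algebraMap F L D * 0 = 0 ^ 3)
    (h' : (-(algebraMap F L D) ^ 2 * y / x ^ 3) ^ 2 + algebraMap F L D * (-(algebraMap F L D) ^ 2 * y / x ^ 3) =
      (-(algebraMap F L D) * y / x ^ 2) ^ 3) :
    mkP h3 hD x y h + mkP h3 hD 0 0 h0 = mkP h3 hD _ _ h' := by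
  let _ := Classical.decEq L
  refine (Affine.Point.add_of_X_ne hx).trans ?_
  unfold mkP
  rw [Affine.Point.some.injEq]
  rw [Affine.slope_of_X_ne hx]
  simp only [Affine.addX, Affine.addY, Affine.negY, Affine.negAddY, ED, WeierstrassCurve.baseChange, map_a₁, map_a₂, map_a₃, map_a₄, map_zero, zero_mul, mul_zero, add_zero, sub_zero]
  constructor
  · field_simp
    linear_combination h
  · field_simp
    linear_combination (algebraMap F L D - y) * h

theorem add_T (h3 : (3 : L) ≠ 0) (hD : D ≠ 0) {x y : L} (h : y ^ 2 + algebraMap F L D * y = x ^ 3)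
    (hx : x ≠ 0) (h0 : (0 : L) ^ 2 + algebraMap F L D * 0 = 0 ^ 3) :
    ∃ h', mkP h3 hD x y h + mkP h3 hD 0 0 h0 =
      mkP h3 hD (-(algebraMap F L D) * y / x ^ 2) (-(algebraMap F L D) ^ 2 * y / x ^ 3) h' := by
  have h' : (-(algebraMap F L D) ^ 2 * y / x ^ 3) ^ 2 + algebraMap F L D * (-(algebraMap F L D) ^ 2 * y / x ^ 3) =
      (-(algebraMap F L D) * y / x ^ 2) ^ 3 := by
    field_simp
    linear_combination (algebraMap F L D) ^ 3 * y * h
  exact ⟨h', add_mk h3 hD h hx h0 h'⟩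

theorem T_add_T (h3 : (3 : L) ≠ 0) (hD : D ≠ 0) (h0 : (0 : L) ^ 2 + algebraMap F L D * 0 = 0 ^ 3)
    (h0' : (-(algebraMap F L D)) ^ 2 + algebraMap F L D * (-(algebraMap F L D)) = 0 ^ 3) :
    mkP h3 hD 0 0 h0 + mkP h3 hD 0 0 h0 = mkP h3 hD 0 (-(algebraMap F L D)) h0' := by
  let _ := Classical.decEq L
  have hd : algebraMap F L D ≠ 0 := (map_ne_zero _).2 hD
  have hy : (0 : L) ≠ ((ED D).baseChange L).toAffine.negY 0 0 := by
    simp only [Affine.negY, ED, WeierstrassCurve.baseChange, map_a₁, map_a₃, map_zero, zero_mul, sub_zero]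
    intro h
    apply hd
    linear_combination h
  refine (Affine.Point.add_self_of_Y_ne hy).trans ?_
  unfold mkP
  rw [Affine.Point.some.injEq]
  rw [Affine.slope_of_Y_ne rfl hy]
  simp [Affine.addX, Affine.addY, Affine.negY, Affine.negAddY, ED, WeierstrassCurve.baseChange]

theorem neg_mk (h3 : (3 : L) ≠ 0) (hD : D ≠ 0) {x y : L} (h : y ^ 2 + algebraMap F L D * y = x ^ 3) :
    ∃ h', -mkP h3 hD x y h = mkP h3 hD x (-y - algebraMap F L D) h' := by
  have h' : (-y - algebraMap F L D) ^ 2 + algebraMap F L D * (-y - algebraMap F L D) = x ^ 3 := by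
    linear_combination h
  refine ⟨h', (Affine.Point.neg_some _).trans ?_⟩
  unfold mkP
  rw [Affine.Point.some.injEq]
  simp [Affine.negY, ED, WeierstrassCurve.baseChange]

/-- `R1 + R1 = - R1` for `x = - β²`, `y = ω D` -/
theorem R_add_R (h3 : (3 : L) ≠ 0) (hD : D ≠ 0) {w β : L} (hw : w ^ 2 + w + 1 = 0)
    (hβ : β ^ 3 = algebraMap F L D) (h : (w * algebraMap F L D) ^ 2 + algebraMap F L D * (w * algebraMap F L D) = (-β ^ 2) ^ 3) :
    mkP h3 hD (-β ^ 2) (w * algebraMap F L D) h + mkP h3 hD (-β ^ 2) (w * algebraMap F L D) h =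
      - mkP h3 hD (-β ^ 2) (w * algebraMap F L D) h := by
  obtain ⟨h', e⟩ := neg_mk h3 hD h
  rw [e]
  let _ := Classical.decEq L
  have hd : algebraMap F L D ≠ 0 := (map_ne_zero _).2 hD
  have hw2 : 2 * w + 1 ≠ 0 := by
    intro h1
    apply h3
    linear_combination 4 * hw - (2 * w + 1) * h1
  have hy : w * algebraMap F L D ≠ ((ED D).baseChange L).toAffine.negY (-β ^ 2) (w * algebraMap F L D) := by
    simp only [Affine.negY, ED, WeierstrassCurve.baseChange, map_a₁, map_a₃, map_zero, zero_mul, sub_zero]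
    intro h1
    apply mul_ne_zero hw2 hd
    linear_combination h1
  refine (Affine.Point.add_self_of_Y_ne hy).trans ?_
  unfold mkP
  rw [Affine.Point.some.injEq]
  rw [Affine.slope_of_Y_ne rfl hy]
  simp only [Affine.addX, Affine.addY, Affine.negY, Affine.negAddY, ED, WeierstrassCurve.baseChange, map_a₁,
    map_a₂, map_a₃, map_a₄, map_zero, zero_mul, mul_zero, add_zero, sub_zero]
  have hden : w * algebraMap F L D - (-(w * algebraMap F L D) - algebraMap F L D) ≠ 0 := by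
    intro h1
    apply mul_ne_zero hw2 hd
    linear_combination h1
  have hX : (3 * (-β ^ 2) ^ 2 / (w * algebraMap F L D - (-(w * algebraMap F L D) - algebraMap F L D))) ^ 2 -
      -β ^ 2 - -β ^ 2 = -β ^ 2 := by
    have hβ0 : β ≠ 0 := by
      intro h1
      rw [h1] at hβ
      apply hd
      rw [← hβ]
      ring
    have e1 : 3 * (-β ^ 2) ^ 2 / (w * algebraMap F L D - (-(w * algebraMap F L D) - algebraMap F L D)) =
        3 * β / (2 * w + 1) := by
      rw [div_eq_div_iff hden hw2, ← hβ]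
      ring
    rw [e1, div_pow]
    field_simp
    linear_combination (12 : L) * hw
  constructor
  · exact hX
  · rw [hX]
    ring

variable (D) in
/-- the point `T = (0, 0)` -/
def TT (h3 : (3 : L) ≠ 0) (hD : D ≠ 0) : Pt (ED D) L := mkP h3 hD 0 0 (by ring)

theorem two_T (h3 : (3 : L) ≠ 0) (hD : D ≠ 0) :
    ∃ h', (2 : ℕ) • TT D h3 hD = (mkP h3 hD 0 (-(algebraMap F L D)) h' : Pt (ED D) L) := by
  refine ⟨by ring, ?_⟩
  rw [two_nsmul]
  exact T_add_T h3 hD _ _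

theorem three_T (h3 : (3 : L) ≠ 0) (hD : D ≠ 0) : (3 : ℕ) • (TT D h3 hD : Pt (ED D) L) = 0 := by
  obtain ⟨h', e⟩ := two_T (F := F) (L := L) h3 hD
  obtain ⟨h'', e'⟩ := neg_mk h3 hD (show (0 : L) ^ 2 + algebraMap F L D * 0 = 0 ^ 3 by ring)
  rw [succ_nsmul, e]
  have e2 : (mkP h3 hD 0 (-(algebraMap F L D)) h' : Pt (ED D) L) = - TT D h3 hD := by
    unfold TT
    rw [e']
    exact (mkP_congr rfl (by ring)).choose_spec
  rw [e2, neg_add_cancel]

theorem T_ne (h3 : (3 : L) ≠ 0) (hD : D ≠ 0) : (TT D h3 hD : Pt (ED D) L) ≠ 0 :=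
  Affine.Point.some_ne_zero _

theorem two_T_ne (h3 : (3 : L) ≠ 0) (hD : D ≠ 0) : (2 : ℕ) • (TT D h3 hD : Pt (ED D) L) ≠ 0 := by
  intro h
  apply T_ne h3 hD (L := L)
  have h1 := three_T (F := F) (L := L) h3 hD
  rw [succ_nsmul, h, zero_add] at h1
  exact h1

variable (D) in
/-- the multiples of `T` -/
noncomputable def tt (h3 : (3 : L) ≠ 0) (hD : D ≠ 0) (c : ZMod 3) : Pt (ED D) L := c.val • TT D h3 hD

theorem mod_T (h3 : (3 : L) ≠ 0) (hD : D ≠ 0) (n : ℕ) :
    n • (TT D h3 hD : Pt (ED D) L) = (n % 3) • TT D h3 hD := by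
  conv_lhs => rw [← Nat.div_add_mod n 3]
  rw [add_nsmul, mul_nsmul, three_T, nsmul_zero, zero_add]

theorem tt_nat (h3 : (3 : L) ≠ 0) (hD : D ≠ 0) (n : ℕ) :
    (tt D h3 hD (n : ZMod 3) : Pt (ED D) L) = n • TT D h3 hD := by
  rw [tt, ZMod.val_natCast, ← mod_T]

theorem tt_add (h3 : (3 : L) ≠ 0) (hD : D ≠ 0) (c c' : ZMod 3) :
    (tt D h3 hD (c + c') : Pt (ED D) L) = tt D h3 hD c + tt D h3 hD c' := by
  rw [tt, tt, tt, ← add_nsmul, ZMod.val_add, ← mod_T]

theorem tt_eq_zero (h3 : (3 : L) ≠ 0) (hD : D ≠ 0) (c : ZMod 3) (h : (tt D h3 hD c : Pt (ED D) L) = 0) : c = 0 := by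
  have h1 : c.val = 0 ∨ c.val = 1 ∨ c.val = 2 := by
    have := ZMod.val_lt c
    omega
  rw [tt] at h
  rcases h1 with h1 | h1 | h1
  · exact (ZMod.val_eq_zero c).1 h1
  · rw [h1, one_nsmul] at h
    exact absurd h (T_ne h3 hD)
  · rw [h1] at h
    exact absurd h (two_T_ne h3 hD)

theorem tt_inj (h3 : (3 : L) ≠ 0) (hD : D ≠ 0) {c c' : ZMod 3}
    (h : (tt D h3 hD c : Pt (ED D) L) = tt D h3 hD c') : c = c' := by
  have h1 := tt_add (L := L) h3 hD (c - c') c'
  rw [sub_add_cancel, h] at h1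
  exact sub_eq_zero.1 (tt_eq_zero h3 hD _ (by simpa using h1.symm))

/-- the functions `γ` and `δ` -/
def gm (d w x y : L) : L := (y - w * d) / ((w ^ 2 - w) * x)

theorem gm_T {d w x y : L} (h3 : (3 : L) ≠ 0) (hd : d ≠ 0) (hw : w ^ 2 + w + 1 = 0) (hx : x ≠ 0)
    (h : y ^ 2 + d * y = x ^ 3) : gm d w (-d * y / x ^ 2) (-d ^ 2 * y / x ^ 3) = w * gm d w x y := by
  have hy : y ≠ 0 := by
    intro h0
    apply pow_ne_zero 3 hx
    rw [← h, h0]
    ring
  have hw2 : w ^ 2 - w ≠ 0 := by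
    intro h1
    apply h3
    have h2 : (w ^ 2 - w) ^ 2 = -3 := by linear_combination (w ^ 2 - 3 * w + 3) * hw
    rw [h1] at h2
    linear_combination h2
  unfold gm
  generalize w ^ 2 - w = e at hw2 ⊢
  field_simp
  linear_combination d * y * hw - w * h

/-- the function `δ` -/
def dl (d w x y : L) : L := (y - w ^ 2 * d) / ((w ^ 2 - w) * x)

theorem w_ne {w : L} (h3 : (3 : L) ≠ 0) (hw : w ^ 2 + w + 1 = 0) : w ^ 2 - w ≠ 0 := by
  intro h1
  apply h3
  have h2 : (w ^ 2 - w) ^ 2 = -3 := by linear_combination (w ^ 2 - 3 * w + 3) * hw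
  rw [h1] at h2
  linear_combination h2

theorem dl_T {d w x y : L} (h3 : (3 : L) ≠ 0) (hd : d ≠ 0) (hw : w ^ 2 + w + 1 = 0) (hx : x ≠ 0)
    (h : y ^ 2 + d * y = x ^ 3) : dl d w (-d * y / x ^ 2) (-d ^ 2 * y / x ^ 3) = w ^ 2 * dl d w x y := by
  have hy : y ≠ 0 := by
    intro h0
    apply pow_ne_zero 3 hx
    rw [← h, h0]
    ring
  have hw2 : w ^ 2 - w ≠ 0 := w_ne h3 hw
  have hw3 : w ^ 3 = 1 := by linear_combination (w - 1) * hw
  have e : w ^ 2 - w ≠ 0 := hw2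
  unfold dl
  have h4 : w ^ 4 = w := by linear_combination w * hw3
  generalize w ^ 2 - w = e at hw2 ⊢
  field_simp
  linear_combination d * y * hw - w ^ 2 * h + d * y * h4

theorem dl_gm {d w x y : L} (h3 : (3 : L) ≠ 0) (hw : w ^ 2 + w + 1 = 0) (hx : x ≠ 0)
    (h : y ^ 2 + d * y = x ^ 3) : dl d w x y ^ 3 - gm d w x y ^ 3 = d := by
  have hw2 : w ^ 2 - w ≠ 0 := w_ne h3 hw
  have hw3 : w ^ 3 = 1 := by linear_combination (w - 1) * hw
  have h2 : (w ^ 2 - w) ^ 2 = -3 := by linear_combination (w ^ 2 - 3 * w + 3) * hw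
  unfold dl gm
  rw [div_pow, div_pow, ← sub_div, div_eq_iff (pow_ne_zero 3 (mul_ne_zero hw2 hx))]
  have h5 : w ^ 2 = -w - 1 := by linear_combination hw
  have h6 : (w ^ 2 - w) ^ 3 = -3 * (w ^ 2 - w) := by linear_combination (w ^ 2 - w) * h2
  rw [mul_pow, h6, ← h, h5]
  ring_nf
  have h7 : w ^ 3 = 1 := hw3
  rw [h7, h5]
  ring

theorem gm_ne {d w x y : L} (h3 : (3 : L) ≠ 0) (hw : w ^ 2 + w + 1 = 0) (hx : x ≠ 0)
    (h : gm d w x y = 0) : y = w * d := by
  unfold gm at h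
  rw [div_eq_zero_iff] at h
  rcases h with h | h
  · exact sub_eq_zero.1 h
  · exact absurd h (mul_ne_zero (w_ne h3 hw) hx)

theorem iter (h3 : (3 : L) ≠ 0) (hD : D ≠ 0) {w x y : L} (hw : w ^ 2 + w + 1 = 0) (hx : x ≠ 0)
    (h : y ^ 2 + algebraMap F L D * y = x ^ 3) (k : ℕ) : ∃ x' y' h', x' ≠ 0 ∧
      mkP h3 hD x y h + k • TT D h3 hD = mkP h3 hD x' y' h' ∧
      gm (algebraMap F L D) w x' y' = w ^ k * gm (algebraMap F L D) w x y ∧
      dl (algebraMap F L D) w x' y' = w ^ (2 * k) * dl (algebraMap F L D) w x y := by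
  have hd : algebraMap F L D ≠ 0 := (map_ne_zero _).2 hD
  induction k with
  | zero => exact ⟨x, y, h, hx, by rw [zero_nsmul, add_zero], by ring, by ring⟩
  | succ k ih =>
    obtain ⟨x', y', h', hx', e1, e2, e3⟩ := ih
    obtain ⟨h'', e4⟩ := add_T h3 hD h' hx' (by ring)
    have hy' : y' ≠ 0 := by
      intro h0
      apply pow_ne_zero 3 hx'
      rw [← h', h0]
      ring
    refine ⟨_, _, h'', ?_, ?_, ?_, ?_⟩
    · exact div_ne_zero (mul_ne_zero (neg_ne_zero.2 hd) hy') (pow_ne_zero 2 hx')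
    · rw [succ_nsmul, ← add_assoc, e1, ← e4]
      rfl
    · rw [gm_T h3 hd hw hx' h', e2]
      ring
    · rw [dl_T h3 hd hw hx' h', e3]
      ring

section act

variable {L' : Type} [Field L'] [Algebra F L']

theorem act_mk (φ : L →ₐ[F] L') (h3 : (3 : L) ≠ 0) (h3' : (3 : L') ≠ 0) (hD : D ≠ 0) {x y : L}
    (h : y ^ 2 + algebraMap F L D * y = x ^ 3) :
    ∃ h', act (ED D) φ (mkP h3 hD x y h) = mkP h3' hD (φ x) (φ y) h' := by
  have h' : φ y ^ 2 + algebraMap F L' D * φ y = φ x ^ 3 := by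
    rw [← map_pow, ← map_pow, ← φ.commutes, ← map_mul, ← map_add, h]
  refine ⟨h', ?_⟩
  rfl

theorem act_TT (φ : L →ₐ[F] L') (h3 : (3 : L) ≠ 0) (h3' : (3 : L') ≠ 0) (hD : D ≠ 0) :
    act (ED D) φ (TT D h3 hD) = TT D h3' hD := by
  obtain ⟨h', e⟩ := act_mk φ h3 h3' hD (show (0 : L) ^ 2 + algebraMap F L D * 0 = 0 ^ 3 by ring)
  unfold TT
  rw [e]
  exact (mkP_congr (map_zero _) (map_zero _)).choose_spec

theorem act_tt (φ : L →ₐ[F] L') (h3 : (3 : L) ≠ 0) (h3' : (3 : L') ≠ 0) (hD : D ≠ 0) (c : ZMod 3) :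
    act (ED D) φ (tt D h3 hD c) = tt D h3' hD c := by
  unfold tt
  rw [map_nsmul, act_TT φ h3 h3' hD]

end act

/-- points with `x = 0` are multiples of `T` -/
theorem ker_tt (h3 : (3 : L) ≠ 0) (hD : D ≠ 0) (P : Pt (ED D) L)
    (h : P = 0 ∨ ∃ y h, P = Affine.Point.some 0 y h) : ∃ c, P = tt D h3 hD c := by
  rcases h with h | ⟨y, h, e⟩
  · exact ⟨0, by rw [h]; unfold tt; rw [ZMod.val_zero, zero_nsmul]⟩
  · have h1 := (nons_iff h3 hD 0 y).1 h
    have h2 : y * (y + algebraMap F L D) = 0 := by linear_combination h1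
    rcases mul_eq_zero.1 h2 with h4 | h4
    · refine ⟨1, ?_⟩
      subst h4
      rw [e]
      unfold tt
      rw [show (1 : ZMod 3).val = 1 from rfl, one_nsmul]
      rfl
    · refine ⟨2, ?_⟩
      have h5 : y = -(algebraMap F L D) := by linear_combination h4
      subst h5
      obtain ⟨h', e'⟩ := two_T (F := F) (L := L) h3 hD
      rw [e]
      unfold tt
      rw [show (2 : ZMod 3).val = 2 from rfl, e']
      rfl

/-- a point is `0`, or `(x, y)` -/
theorem pt_cases (h3 : (3 : L) ≠ 0) (hD : D ≠ 0) (P : Pt (ED D) L) :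
    P = 0 ∨ ∃ x y h, P = mkP h3 hD x y h := by
  match P with
  | Affine.Point.zero => exact Or.inl rfl
  | Affine.Point.some x y h => exact Or.inr ⟨x, y, (nons_iff h3 hD x y).1 h, rfl⟩

end

end Pool.Agent.Q190.CE
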