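import Pool.Agent.Q7.CE.Stm

/-!
# Project CE (helper7), job ISO: isotropic sets are small
-/

set_option autoImplicit false

namespace Pool.Agent.Q190.CE

open Module Submodule

/-- isotropic sets in a vector space -/
theorem iso_vec (p : ℕ) [hp : Fact p.Prime] (V : Type) [AddCommGroup V] [Module (ZMod p) V] (n : ℕ)
    (b : V → V → ZMod p) (b_add1 : ∀ x y z, b (x + y) z = b x z + b y z)
    (b_add2 : ∀ x y z, b x (y + z) = b x y + b x z) (anti : ∀ x y, b x y = - b y x)
    (nd : ∀ x, (∀ y, b y x = 0) → x = 0) (hfs : ∀ S : Finset V, S.card ≤ p ^ n)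
    (B : Finset V) (hiso : ∀ x ∈ B, ∀ y ∈ B, b x y = 0) : B.card ≤ p ^ (n / 2) := by
  classical
  have b_smul1 : ∀ (k : ZMod p) x y, b (k • x) y = k • b x y := by
    intro k x y
    exact ZMod.map_smul (AddMonoidHom.mk' (fun x => b x y) (fun x x' => b_add1 x x' y)) k x
  have b_smul2 : ∀ (k : ZMod p) x y, b x (k • y) = k • b x y := by
    intro k x y
    exact ZMod.map_smul (AddMonoidHom.mk' (fun y => b x y) (fun y y' => b_add2 x y y')) k y
  obtain ⟨Bf, Bf_apply⟩ : ∃ Bf : LinearMap.BilinForm (ZMod p) V, ∀ x y, Bf x y = b x y :=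
    ⟨LinearMap.mk₂ (ZMod p) b b_add1 b_smul1 b_add2 b_smul2, fun x y => rfl⟩
  have hanti : ∀ x y, Bf x y = - Bf y x := by
    intro x y
    rw [Bf_apply, Bf_apply]
    exact anti _ _
  have hndl : ∀ x : V, (∀ y, Bf y x = 0) → x = 0 := by
    intro x h
    apply nd
    intro y
    rw [← Bf_apply]
    exact h y
  have hnd : Bf.Nondegenerate := by
    constructor
    · intro x h
      apply hndl
      intro y
      rw [hanti, h, neg_zero]
    · intro x h
      exact hndl x h
  have hfin : Finite V := by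
    by_contra h
    rw [not_finite_iff_infinite] at h
    obtain ⟨S, hS⟩ := Infinite.exists_subset_card_eq V (p ^ n + 1)
    have := hfs S
    omega
  have hVcard : Nat.card V ≤ p ^ n := by
    have := Fintype.ofFinite V
    rw [Nat.card_eq_fintype_card, ← Finset.card_univ]
    exact hfs _
  have : Module.Finite (ZMod p) V := Module.Finite.of_finite
  have hdim : finrank (ZMod p) V ≤ n := by
    rw [Module.natCard_eq_pow_finrank (K := ZMod p), Nat.card_zmod] at hVcard
    exact (Nat.pow_le_pow_iff_right hp.out.one_lt).1 hVcard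
  obtain ⟨W, hW⟩ : ∃ W : Submodule (ZMod p) V, W = span (ZMod p) (B : Set V) := ⟨_, rfl⟩
  have hWiso : W ≤ Bf.orthogonal W := by
    intro x hx
    rw [LinearMap.BilinForm.mem_orthogonal_iff]
    intro y hy
    show Bf y x = 0
    rw [hW] at hx hy
    induction hx using span_induction with
    | mem x hx =>
      induction hy using span_induction with
      | mem y hy =>
        rw [Bf_apply]
        exact hiso y hy x hx
      | zero => rw [map_zero, LinearMap.zero_apply]
      | add u w _ _ hu hw => rw [map_add, LinearMap.add_apply, hu, hw, add_zero]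
      | smul k u _ hu => rw [map_smul, LinearMap.smul_apply, hu, smul_zero]
    | zero => rw [map_zero]
    | add u w _ _ hu hw => rw [map_add, hu, hw, add_zero]
    | smul k u _ hu => rw [map_smul, hu, smul_zero]
  have h1 := Submodule.finrank_mono hWiso
  rw [LinearMap.BilinForm.finrank_orthogonal hnd] at h1
  have h1' := Submodule.finrank_le W
  have h2 : finrank (ZMod p) W ≤ n / 2 := by omega
  have h3 : B.card ≤ Nat.card W := by
    have hi : Function.Injective (fun g : {g // g ∈ B} => (⟨g.1, by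
        rw [hW]; exact subset_span g.2⟩ : W)) := by
      intro g g' h
      have h5 : g.1 = g'.1 := congrArg (fun w : W => (w : V)) h
      exact Subtype.ext h5
    have h4 := Nat.card_le_card_of_injective _ hi
    rwa [Nat.card_eq_fintype_card, Fintype.card_coe] at h4
  rw [Module.natCard_eq_pow_finrank (K := ZMod p), Nat.card_zmod] at h3
  exact h3.trans (Nat.pow_le_pow_right hp.out.pos h2)

/-- isotropic sets in a group of exponent `p` modulo the radical -/
theorem iso_abs (p : ℕ) [hp : Fact p.Prime] {G : Type} [CommGroup G] (L : Subgroup G) (n : ℕ)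
    (hpow : ∀ g : G, g ^ p ∈ L) (T : G → G → ZMod p) (mul1 : ∀ a b c, T (a * b) c = T a c + T b c)
    (anti : ∀ a c, T a c = - T c a) (zero : ∀ a ∈ L, ∀ c, T a c = 0)
    (nd : ∀ d, (∀ a, T a d = 0) → d ∈ L)
    (hcard : ∀ S : Finset G, (∀ a ∈ S, ∀ b ∈ S, a ≠ b → a / b ∉ L) → S.card ≤ p ^ n)
    (B : Finset G) (hB : ∀ a ∈ B, ∀ b ∈ B, a ≠ b → a / b ∉ L) (iso : ∀ b ∈ B, ∀ b' ∈ B, T b b' = 0) :
    B.card ≤ p ^ (n / 2) := by
  classical
  have tw : ∀ a a' c, a / a' ∈ L → T a c = T a' c := by
    intro a a' c h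
    have h1 := mul1 (a / a') a' c
    rw [div_mul_cancel, zero _ h, zero_add] at h1
    exact h1
  have mul2 : ∀ a b c, T a (b * c) = T a b + T a c := by
    intro a b c
    rw [anti, mul1, neg_add, ← anti, ← anti]
  have tw2 : ∀ a c c', c / c' ∈ L → T a c = T a c' := by
    intro a c c' h
    rw [anti a c, anti a c', tw c c' a h]
  obtain ⟨mk, hmk⟩ : ∃ mk : G → Additive (G ⧸ L), mk = fun g : G => Additive.ofMul (QuotientGroup.mk g : G ⧸ L) :=
    ⟨_, rfl⟩
  have mk_mul : ∀ a b, mk (a * b) = mk a + mk b := fun a b => by rw [hmk]; rfl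
  have mk_surj : ∀ x : Additive (G ⧸ L), ∃ a, mk a = x := by
    intro x
    obtain ⟨a, ha⟩ := QuotientGroup.mk_surjective (Additive.toMul x)
    rw [hmk]
    exact ⟨a, congrArg Additive.ofMul ha⟩
  have mk_eq : ∀ a b, mk a = mk b ↔ a / b ∈ L := by
    intro a b
    rw [hmk]
    constructor
    · intro h
      have h1 : (a : G ⧸ L) = (b : G ⧸ L) := Additive.ofMul.injective h
      rw [QuotientGroup.eq_iff_div_mem] at h1
      exact h1
    · intro h
      have h1 : (a : G ⧸ L) = (b : G ⧸ L) := by
        rw [QuotientGroup.eq_iff_div_mem]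
        exact h
      exact congrArg Additive.ofMul h1
  have mk_zero : ∀ a, mk a = 0 ↔ a ∈ L := by
    intro a
    have h0 : (0 : Additive (G ⧸ L)) = mk 1 := by rw [hmk]; rfl
    rw [h0, mk_eq, div_one]
  have hVp : ∀ x : Additive (G ⧸ L), p • x = 0 := by
    intro x
    obtain ⟨a, rfl⟩ := mk_surj x
    have h1 : p • mk a = mk (a ^ p) := by rw [hmk]; rfl
    rw [h1, mk_zero]
    exact hpow a
  let inst : Module (ZMod p) (Additive (G ⧸ L)) := AddCommGroup.zmodModule hVp
  -- representatives
  choose r hr using mk_surj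
  have b_mk : ∀ a c, T (r (mk a)) (r (mk c)) = T a c := by
    intro a c
    have h1 : r (mk a) / a ∈ L := (mk_eq _ _).1 (hr _)
    have h2 : r (mk c) / c ∈ L := (mk_eq _ _).1 (hr _)
    rw [tw _ _ _ h1, tw2 _ _ _ h2]
  have b_add1 : ∀ x y z, T (r (x + y)) (r z) = T (r x) (r z) + T (r y) (r z) := by
    intro x y z
    rw [← mul1]
    apply tw
    rw [← mk_eq, hr, mk_mul, hr, hr]
  have b_add2 : ∀ x y z, T (r x) (r (y + z)) = T (r x) (r y) + T (r x) (r z) := by
    intro x y z
    rw [← mul2]
    apply tw2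
    rw [← mk_eq, hr, mk_mul, hr, hr]
  have hmain := iso_vec p (Additive (G ⧸ L)) n (fun x y => T (r x) (r y)) b_add1 b_add2
    (fun x y => anti _ _) (by
      intro x h
      rw [← hr x, mk_zero]
      apply nd
      intro a
      have h1 := h (mk a)
      have h2 : r (mk a) / a ∈ L := (mk_eq _ _).1 (hr _)
      rw [tw _ _ _ h2] at h1
      exact h1) (by
      intro S
      have hinj : Function.Injective r := by
        intro x y h
        rw [← hr x, ← hr y, h]
      rw [← Finset.card_image_of_injective S hinj]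
      apply hcard
      intro a ha c hc hac h
      rw [Finset.mem_image] at ha hc
      obtain ⟨x, _, rfl⟩ := ha
      obtain ⟨y, _, rfl⟩ := hc
      apply hac
      have := (mk_eq _ _).2 h
      rw [hr, hr] at this
      rw [this]) (B.image mk) (by
      intro x hx y hy
      rw [Finset.mem_image] at hx hy
      obtain ⟨a, ha, rfl⟩ := hx
      obtain ⟨c, hc, rfl⟩ := hy
      show T (r (mk a)) (r (mk c)) = 0
      rw [b_mk]
      exact iso a ha c hc)
  rw [Finset.card_image_of_injOn] at hmain
  · exact hmain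
  · intro a ha c hc h
    by_contra h5
    exact hB a ha c hc h5 ((mk_eq _ _).1 h)

open NumberField IsDedekindDomain Filter Topology Finset
open Pool.Agent.Q7.LK Pool.Agent.Q7.CE

theorem iso : S_BAS → S_LOCV → S_NDG → S_ISO := by
  intro BAS LOCV NDG p hp h2 F _ _ ζ hζ t ht v B hB0 hB hiso
  classical
  obtain ⟨b1, b2, b3, b4, b5, b6, b7⟩ := BAS p F v
  let L : Subgroup Fˣ :=
    { carrier := {b | Lpw p v (b : F)}
      mul_mem' := by
        intro a b ha hb
        show Lpw p v ((a * b : Fˣ) : F)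
        rw [Units.val_mul]
        exact b2 _ _ ha hb
      one_mem' := by
        show Lpw p v ((1 : Fˣ) : F)
        have := b3 1 one_ne_zero
        rwa [one_pow] at this
      inv_mem' := by
        intro a ha
        show Lpw p v ((a⁻¹ : Fˣ) : F)
        rw [Units.val_inv_eq_inv_val]
        exact b4 _ ha }
  have mL : ∀ a : Fˣ, a ∈ L ↔ Lpw p v (a : F) := fun a => Iff.rfl
  have mLd : ∀ a b : Fˣ, a / b ∈ L ↔ Lpw p v ((a : F) / b) := by
    intro a b
    rw [mL, Units.val_div_eq_div_val]
  -- lift of a finite set to units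
  have lift : ∀ S : Finset F, (∀ b ∈ S, b ≠ 0) → ∃ S' : Finset Fˣ, S'.card = S.card ∧ ∀ a ∈ S', (a : F) ∈ S := by
    intro S hS
    refine ⟨S.attach.image (fun b => Units.mk0 b.1 (hS b.1 b.2)), ?_, ?_⟩
    · rw [card_image_of_injective, card_attach]
      intro x y h
      have := congrArg (fun u : Fˣ => (u : F)) h
      exact Subtype.ext this
    · intro a ha
      rw [mem_image] at ha
      obtain ⟨b, _, rfl⟩ := ha
      exact b.2
  obtain ⟨B', hB'c, hB'm⟩ := lift B hB0
  rw [← hB'c]
  refine iso_abs p L (2 + dv p v) ?_ (fun a c => t v a c) ?_ ?_ ?_ ?_ ?_ B' ?_ ?_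
  · intro g
    rw [mL, Units.val_pow_eq_pow_val]
    exact b3 _ g.ne_zero
  · intro a b c
    show t v ((a * b : Fˣ) : F) c = _
    rw [Units.val_mul]
    exact ht.mul v _ _ _ a.ne_zero b.ne_zero c.ne_zero
  · intro a c
    exact ht.anti v _ _ a.ne_zero c.ne_zero
  · intro a ha c
    exact ht.pow v _ _ ((mL a).1 ha) c.ne_zero
  · intro d hd
    rw [mL]
    refine NDG p h2 F ζ hζ t ht v d d.ne_zero ?_
    intro a ha
    exact hd (Units.mk0 a ha)
  · intro S hS
    have h3 : (S.image (fun u : Fˣ => (u : F))).card = S.card :=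
      card_image_of_injective S Units.val_injective
    rw [← h3]
    refine LOCV p h2 F ζ hζ v _ ?_ ?_
    · intro b hb
      rw [mem_image] at hb
      obtain ⟨u, _, rfl⟩ := hb
      exact u.ne_zero
    · intro b hb b' hb' hne
      rw [mem_image] at hb hb'
      obtain ⟨u, hu, rfl⟩ := hb
      obtain ⟨u', hu', rfl⟩ := hb'
      rw [← mLd]
      exact hS u hu u' hu' (fun h => hne (by rw [h]))
  · intro a ha b hb hne
    rw [mLd]
    exact hB _ (hB'm a ha) _ (hB'm b hb) (fun h => hne (Units.ext h))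
  · intro b hb b' hb'
    exact hiso _ (hB'm b hb) _ (hB'm b' hb')

end Pool.Agent.Q190.CE
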